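import Pool.Agent.Helper23.XT.Ultra

/-!
[XT-Div] The value group of a proper coarsening of an extremal valuation is divisible.
-/

namespace Pool.Agent.Helper5.XT

open MvPolynomial Pool.Agent.Helper23.XT

variable {K Γ Γ' : Type*} [Field K] [LinearOrderedCommGroupWithZero Γ]
  [LinearOrderedCommGroupWithZero Γ'] {v : Valuation K Γ} {w : Valuation K Γ'}

namespace DivAux

/-- the form `U ^ m - c V ^ m` -/
def Phi (c : K) (m : ℕ) (U V : K) : K := U ^ m - c * V ^ m

theorem val_Phi (hvw : ∀ x, v x ≤ 1 → w x ≤ 1) {c : K} {m : ℕ} (hm : 0 < m)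
    (hno : ∀ x, w x ^ m ≠ w c) (U V : K) :
    v (Phi c m U V) = max (v U ^ m) (v c * v V ^ m) := by
  unfold Phi
  rcases eq_or_ne V 0 with rfl | hV
  · rw [zero_pow hm.ne', mul_zero, sub_zero, map_pow, map_zero, zero_pow hm.ne', mul_zero,
      max_eq_left zero_le]
  · have h1 : v (U ^ m) ≠ v (-(c * V ^ m)) := by
      rw [Valuation.map_neg]
      intro h
      have h2 : w (U ^ m) = w (c * V ^ m) :=
        le_antisymm (w_le_of_v_le hvw h.le) (w_le_of_v_le hvw h.ge)
      apply hno (U / V)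
      have hV' : w V ≠ 0 := (Valuation.ne_zero_iff w).2 hV
      rw [map_div₀, div_pow, div_eq_iff (pow_ne_zero m hV'), ← map_pow, h2, map_mul, map_pow]
    rw [sub_eq_add_neg, Valuation.map_add_of_distinct_val _ h1, Valuation.map_neg, map_pow,
      map_mul, map_pow]

/-- the test polynomial -/
noncomputable def EP (c : K) (m : ℕ) : MvPolynomial (Fin 2) K :=
  (X 0 ^ m - C c * X 1 ^ m) ^ m - C c * (C (c ^ 2)⁻¹ * (X 0 * X 1 - C c)) ^ m

theorem eval_EP (c : K) (m : ℕ) (x y : K) :
    eval ![x, y] (EP c m) = Phi c m (Phi c m x y) ((c ^ 2)⁻¹ * (x * y - c)) := by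
  simp [EP, Phi]

theorem aux (hv : Extremal v) (hvw : ∀ x, v x ≤ 1 → w x ≤ 1)
    (hprop : ∃ x, v x < 1 ∧ w x = 1) {c : K} (hc : c ≠ 0) {m : ℕ} (hm : 0 < m)
    (hc1 : w c < 1) : ∃ x, w x ^ m = w c := by
  by_contra hcon
  push Not at hcon
  have hno : ∀ x, w x ^ m ≠ w c := hcon
  obtain ⟨x0, hx0, hx0w⟩ := hprop
  have hm2 : 2 ≤ m := by
    by_contra h
    have h1 : m = 1 := by omega
    exact hno c (by rw [h1, pow_one])
  have hx00 : x0 ≠ 0 := by
    rintro rfl
    rw [map_zero] at hx0w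
    exact zero_ne_one hx0w
  have hwc : w c ≠ 0 := (Valuation.ne_zero_iff w).2 hc
  have hvc : v c ≠ 0 := (Valuation.ne_zero_iff v).2 hc
  have hvc0 : 0 < v c := zero_lt_iff.2 hvc
  have hvc1 : v c < 1 := v_lt_one_of_w_lt_one hvw hc1
  have hPhi : ∀ U V : K, v (Phi c m U V) = max (v U ^ m) (v c * v V ^ m) :=
    fun U V => val_Phi hvw hm hno U V
  -- values at points with `x y = c`
  have hEc : ∀ x y : K, x * y = c → v (eval ![x, y] (EP c m)) = v (Phi c m x y) ^ m := by
    intro x y hxy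
    rw [eval_EP, hPhi, hxy, sub_self, mul_zero, map_zero, zero_pow hm.ne', mul_zero,
      max_eq_left zero_le]
  have hEge : ∀ x y : K, v (Phi c m x y) ^ m ≤ v (eval ![x, y] (EP c m)) := by
    intro x y
    rw [eval_EP, hPhi (Phi c m x y)]
    exact le_max_left _ _
  -- the minimum
  obtain ⟨a, ha, hmin⟩ := hv 2 (EP c m)
  have ha' : a = ![a 0, a 1] := by
    ext i; fin_cases i <;> rfl
  set x := a 0 with hx
  set y := a 1 with hy
  have hvx : v x ≤ 1 := ha 0
  have hvy : v y ≤ 1 := ha 1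
  have hmin' : ∀ p q : K, v p ≤ 1 → v q ≤ 1 →
      v (eval ![x, y] (EP c m)) ≤ v (eval ![p, q] (EP c m)) := by
    intro p q hp hq
    rw [← ha']
    apply hmin
    intro i
    fin_cases i
    · simpa using hp
    · simpa using hq
  -- a point with value `< 1`
  have hlt : v (eval ![x, y] (EP c m)) < 1 := by
    have hx0y : x0 * (c / x0) = c := by field_simp
    have h1 : v (c / x0) < 1 := by
      apply v_lt_one_of_w_lt_one hvw
      rw [map_div₀, hx0w, div_one]
      exact hc1
    refine (hmin' x0 (c / x0) hx0.le h1.le).trans_lt ?_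
    rw [hEc _ _ hx0y, hPhi]
    refine pow_lt_one₀ zero_le (max_lt (pow_lt_one₀ zero_le hx0 hm.ne') ?_) hm.ne'
    exact mul_lt_one_of_nonneg_of_lt_one_left zero_le hvc1 (pow_le_one₀ zero_le h1.le)
  -- `v (x y) = v c`
  have hxy : v (x * y) = v c := by
    by_contra hne
    have h1 : v c ≤ v (x * y - c) := by
      have h2 : v (x * y - c) = max (v (x * y)) (v c) := by
        rw [sub_eq_add_neg, Valuation.map_add_of_distinct_val _ (by rwa [Valuation.map_neg]),
          Valuation.map_neg]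
      rw [h2]
      exact le_max_right _ _
    have h3 : v c * v ((c ^ 2)⁻¹ * (x * y - c)) ^ m ≤ v (eval ![x, y] (EP c m)) := by
      rw [eval_EP, hPhi]
      exact le_max_right _ _
    have h4 : (v c)⁻¹ ≤ v ((c ^ 2)⁻¹ * (x * y - c)) := by
      rw [map_mul, map_inv₀, map_pow]
      calc (v c)⁻¹ = (v c ^ 2)⁻¹ * v c := by
            rw [sq, mul_inv, mul_assoc, inv_mul_cancel₀ hvc, mul_one]
        _ ≤ (v c ^ 2)⁻¹ * v (x * y - c) := mul_le_mul_right h1 _
    have h5 : 1 ≤ v c * v ((c ^ 2)⁻¹ * (x * y - c)) ^ m := by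
      have h6 : (v c)⁻¹ ≤ v ((c ^ 2)⁻¹ * (x * y - c)) ^ m := by
        refine h4.trans (le_self_pow₀ ?_ hm.ne')
        refine le_trans ?_ h4
        exact (one_le_inv₀ hvc0).2 hvc1.le
      calc (1 : Γ) = v c * (v c)⁻¹ := (mul_inv_cancel₀ hvc).symm
        _ ≤ v c * v ((c ^ 2)⁻¹ * (x * y - c)) ^ m := mul_le_mul_right h6 _
    exact absurd (h5.trans h3) (not_le.2 hlt)
  have hwxy : w x * w y = w c := by
    rw [← map_mul]
    exact le_antisymm (w_le_of_v_le hvw hxy.le) (w_le_of_v_le hvw hxy.ge)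
  have hx00' : x ≠ 0 := by
    intro h
    rw [h, zero_mul, map_zero] at hxy
    exact hvc hxy.symm
  have hy00' : y ≠ 0 := by
    intro h
    rw [h, mul_zero, map_zero] at hxy
    exact hvc hxy.symm
  have hwx1 : w x ≤ 1 := hvw _ hvx
  have hwy1 : w y ≤ 1 := hvw _ hvy
  have hwx0 : w x ≠ 0 := (Valuation.ne_zero_iff w).2 hx00'
  have hwy0 : w y ≠ 0 := (Valuation.ne_zero_iff w).2 hy00'
  have hx0m : v x0 ^ m < 1 := pow_lt_one₀ zero_le hx0 hm.ne'
  rcases lt_trichotomy (w (x ^ m)) (w (c * y ^ m)) with hlt' | heq | hgt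
  · -- `w x < 1`
    have hwx : w x < 1 := by
      refine lt_of_le_of_ne hwx1 fun h => ?_
      rw [map_pow, h, one_pow, map_mul, map_pow] at hlt'
      have : w c * w y ^ m ≤ w c * 1 := mul_le_mul_right (pow_le_one₀ zero_le hwy1) _
      rw [mul_one] at this
      exact absurd (hlt'.trans_le this) (not_lt.2 hc1.le)
    have hyx : y * x0 ≠ 0 := mul_ne_zero hy00' hx00
    have hprod : (c / (y * x0)) * (y * x0) = c := by field_simp
    have hw' : w (c / (y * x0)) = w x := by
      rw [map_div₀, map_mul, hx0w, mul_one, div_eq_iff hwy0, hwxy]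
    have hv1 : v (c / (y * x0)) < 1 := v_lt_one_of_w_lt_one hvw (by rw [hw']; exact hwx)
    have hv2 : v (y * x0) ≤ 1 := by
      rw [map_mul]
      exact mul_le_one₀ hvy zero_le hx0.le
    have h1 := (hEge x y).trans (hmin' _ _ hv1.le hv2)
    rw [hEc _ _ hprod] at h1
    have h2 : v (Phi c m (c / (y * x0)) (y * x0)) < v (Phi c m x y) := by
      rw [hPhi, hPhi]
      refine lt_of_lt_of_le ?_ (le_max_right _ _)
      refine max_lt ?_ ?_
      · rw [← map_pow, ← map_pow, ← map_mul]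
        apply v_lt_of_w_lt hvw
        rw [map_pow, hw', ← map_pow]
        exact hlt'
      · rw [map_mul, mul_pow, ← mul_assoc]
        have : 0 < v c * v y ^ m := zero_lt_iff.2 (mul_ne_zero hvc (pow_ne_zero m
          ((Valuation.ne_zero_iff v).2 hy00')))
        exact mul_lt_of_lt_one_right this hx0m
    exact absurd h1 (not_le.2 (pow_lt_pow_left₀ h2 zero_le hm.ne'))
  · apply hno (x / y)
    rw [map_div₀, div_pow, div_eq_iff (pow_ne_zero m hwy0), ← map_pow, heq, map_mul, map_pow]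
  · have hwy : w y < 1 := by
      refine lt_of_le_of_ne hwy1 fun h => ?_
      rw [h, mul_one] at hwxy
      rw [map_mul, map_pow, map_pow, h, one_pow, mul_one, hwxy] at hgt
      exact absurd hgt (not_lt.2 (pow_le_of_le_one zero_le hc1.le hm.ne'))
    have hyx : x * x0 ≠ 0 := mul_ne_zero hx00' hx00
    have hprod : (x * x0) * (c / (x * x0)) = c := by field_simp
    have hw' : w (c / (x * x0)) = w y := by
      rw [map_div₀, map_mul, hx0w, mul_one, div_eq_iff hwx0, mul_comm, hwxy]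
    have hv1 : v (c / (x * x0)) < 1 := v_lt_one_of_w_lt_one hvw (by rw [hw']; exact hwy)
    have hv2 : v (x * x0) ≤ 1 := by
      rw [map_mul]
      exact mul_le_one₀ hvx zero_le hx0.le
    have h1 := (hEge x y).trans (hmin' _ _ hv2 hv1.le)
    rw [hEc _ _ hprod] at h1
    have h2 : v (Phi c m (x * x0) (c / (x * x0))) < v (Phi c m x y) := by
      rw [hPhi, hPhi]
      refine lt_of_lt_of_le ?_ (le_max_left _ _)
      refine max_lt ?_ ?_
      · rw [map_mul, mul_pow]
        have : 0 < v x ^ m := zero_lt_iff.2 (pow_ne_zero m ((Valuation.ne_zero_iff v).2 hx00'))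
        exact mul_lt_of_lt_one_right this hx0m
      · rw [← map_pow, ← map_pow, ← map_mul]
        apply v_lt_of_w_lt hvw
        rw [map_mul, map_pow, hw', ← map_pow, ← map_mul]
        exact hgt
    exact absurd h1 (not_le.2 (pow_lt_pow_left₀ h2 zero_le hm.ne'))

end DivAux

open DivAux

/-- the value group of a proper coarsening of an extremal valuation is divisible -/
theorem divisible (hv : Extremal v) (hvw : ∀ x, v x ≤ 1 → w x ≤ 1)
    (hprop : ∃ x, v x < 1 ∧ w x = 1) (c : K) (hc : c ≠ 0) (m : ℕ) (hm : 0 < m) :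
    ∃ x, w x ^ m = w c := by
  have hwc : w c ≠ 0 := (Valuation.ne_zero_iff w).2 hc
  rcases lt_trichotomy (w c) 1 with h | h | h
  · exact aux hv hvw hprop hc hm h
  · exact ⟨1, by rw [map_one, one_pow, h]⟩
  · obtain ⟨x, hx⟩ := aux hv hvw hprop (inv_ne_zero hc) hm
      (by rw [map_inv₀]; exact inv_lt_one_of_one_lt₀ h)
    refine ⟨x⁻¹, ?_⟩
    rw [map_inv₀, inv_pow, hx, map_inv₀, inv_inv]

end Pool.Agent.Helper5.XT
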